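import Pool.Agent.helper4.NF.SpecB
import Pool.Agent.helper59.DM.DV

/-! nf:GLV -/

set_option autoImplicit false

open Complex MeasureTheory

namespace Pool.Agent.NF

open Pool.Agent.helper84.DM Pool.Agent.helper78.ED Pool.Agent.DH Pool.Agent.ZD

theorem GLV (hLBD : LBD_stmt) (hMQI : MQI_stmt) (hEXA : EXA_stmt) : GLV_stmt := by
  intro ε δ hε hδ hδ'
  obtain ⟨C₁, T₁, hC₁, hM⟩ := hMQI (ε / 2) δ (by positivity) hδ hδ'
  obtain ⟨C₂, hC₂, hdiv⟩ := divisor_bound (ε / 8) (by positivity)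
  obtain ⟨E, hE⟩ : ∃ E : ℝ, E = C₂ * (64 : ℝ) ^ (ε / 8) := ⟨_, rfl⟩
  have hE0 : 0 < E := by rw [hE]; positivity
  refine ⟨1152 * E + 972 * C₁ * E ^ 3, max T₁ 1, by positivity, ?_⟩
  intro T hT W hW NP NE NQ L bP bE bQ UP V VQ hNP hNE hNQ hL h14 hNQL hX hbP hbE hbQ hUP hV hVQ hWt
  have hT1 : 1 ≤ T := (le_max_right _ _).trans hT
  have hT0 : 0 < T := by linarith
  have hTT₁ : T₁ ≤ T := (le_max_left _ _).trans hT
  have rNP : (1 : ℝ) ≤ NP := by exact_mod_cast hNP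
  have rNE : (1 : ℝ) ≤ NE := by exact_mod_cast hNE
  have rNQ : (1 : ℝ) ≤ NQ := by exact_mod_cast hNQ
  have rL : (1 : ℝ) ≤ L := by exact_mod_cast hL
  have hX1 : (1 : ℝ) ≤ (NP : ℝ) * NE * L := by
    have h1 : (1 : ℝ) ≤ (NP : ℝ) * NE := by nlinarith
    nlinarith
  obtain ⟨D, hD⟩ : ∃ D : ℝ, D = E * T ^ (ε / 8) := ⟨_, rfl⟩
  have hD0 : 0 < D := by rw [hD]; positivity
  have hdk : ∀ k : ℕ, 1 ≤ k → k ≤ 32 * (NP * NE * L) → d k ≤ D := by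
    intro k hk1 hk2
    refine (hdiv k hk1).trans ?_
    have h1 : (k : ℝ) ≤ 64 * T := by
      have h2 : (k : ℝ) ≤ 32 * ((NP : ℝ) * NE * L) := by exact_mod_cast hk2
      linarith
    have h3 : (k : ℝ) ^ (ε / 8) ≤ (64 * T) ^ (ε / 8) :=
      Real.rpow_le_rpow (Nat.cast_nonneg k) h1 (by positivity)
    rw [Real.mul_rpow (by norm_num) hT0.le] at h3
    rw [hD, hE, mul_assoc]
    exact mul_le_mul_of_nonneg_left h3 hC₂.le
  obtain ⟨hmu0, hmu⟩ := hEXA.2.2.2.2.2.2.2.2 ((NP : ℝ) * NE * L) hX1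
  obtain ⟨G, hG⟩ : ∃ G : ℝ, G = ∑ t ∈ W, ‖PP NP bP t * PP NE bE t‖ ^ 2 := ⟨_, rfl⟩
  obtain ⟨S, hS⟩ : ∃ S : ℝ, S = ∑ τ ∈ W, qk W (NP * NE * L) (NE * L) (PP NP bP) τ := ⟨_, rfl⟩
  have hLB := hLBD W NP NE L bP bE D hNP hNE hL hbP hbE hdk hmu0
  have hMQ := hM T hTT₁ W hW NP NE NQ L bP bQ UP VQ hNP hNE hNQ hL h14 hNQL hX hbP hbQ hUP hVQ
    (fun t ht => ⟨(hWt t ht).1, (hWt t ht).2.2⟩)
  rw [← hG, ← hS] at hLB
  rw [← hS] at hMQ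
  have hR0 : (0 : ℝ) ≤ (W.card : ℝ) := Nat.cast_nonneg _
  have hRG : (W.card : ℝ) * V ^ 2 ≤ G := by
    rw [hG, ← nsmul_eq_mul]
    refine Finset.card_nsmul_le_sum W _ _ fun t ht => ?_
    exact pow_le_pow_left₀ hV (hWt t ht).2.1 2
  have hTe : T ^ (ε / 8) ≤ T ^ ε := Real.rpow_le_rpow_of_exponent_le hT1 (by linarith)
  obtain ⟨Z, hZ⟩ : ∃ Z : ℝ, Z = UP ^ 2 * (NP * NE * L) + NP * T +
      ((NP : ℝ) ^ 3 * UP ^ 2 * T) ^ (1 / 2 : ℝ) + UP ^ 2 * NQ * T / (NE * L) := ⟨_, rfl⟩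
  have hZ0 : 0 ≤ Z := by rw [hZ]; positivity
  rw [← hZ] at hMQ ⊢
  rcases hLB with h1 | h1
  · left
    calc (W.card : ℝ) * V ^ 2 ≤ G := hRG
      _ ≤ 18 * (NP * NE) * D * mu (NP * NE * L) := h1
      _ ≤ 18 * (NP * NE) * D * (64 * (NP * NE * L)) :=
        mul_le_mul_of_nonneg_left hmu (by positivity)
      _ = (1152 * E) * T ^ (ε / 8) * (((NP : ℝ) * NE) ^ 2 * L) := by rw [hD]; ring
      _ ≤ (1152 * E + 972 * C₁ * E ^ 3) * T ^ ε * (((NP : ℝ) * NE) ^ 2 * L) := by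
        have h2 : 0 ≤ 972 * C₁ * E ^ 3 := by positivity
        gcongr
        linarith
  · rcases hR0.eq_or_lt with h0 | hRpos
    · left
      rw [← h0, zero_mul]
      positivity
    right
    have h2 : (L : ℝ) * ((W.card : ℝ) * V ^ 2) ^ 3 ≤ L * G ^ 3 := by
      gcongr
    have h3 : VQ ^ 2 * ((L : ℝ) * ((W.card : ℝ) * V ^ 2) ^ 3) ≤
        972 * ((NP : ℝ) * NE) ^ 2 * NE * D ^ 3 * (VQ ^ 2 * S) := by
      calc VQ ^ 2 * ((L : ℝ) * ((W.card : ℝ) * V ^ 2) ^ 3)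
          ≤ VQ ^ 2 * (972 * ((NP : ℝ) * NE) ^ 2 * NE * D ^ 3 * S) :=
            mul_le_mul_of_nonneg_left (h2.trans h1) (by positivity)
        _ = _ := by ring
    have h4 : VQ ^ 2 * ((L : ℝ) * ((W.card : ℝ) * V ^ 2) ^ 3) ≤
        972 * ((NP : ℝ) * NE) ^ 2 * NE * D ^ 3 * (C₁ * T ^ (ε / 2 + 6 * δ) *
        (W.card : ℝ) * (NE * L * T * NQ) * Z) :=
      h3.trans (mul_le_mul_of_nonneg_left hMQ (by positivity))
    have hD3 : D ^ 3 = E ^ 3 * T ^ (3 * (ε / 8)) := by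
      rw [hD, mul_pow, ← Real.rpow_natCast (T ^ (ε / 8)) 3, ← Real.rpow_mul hT0.le]
      norm_num
      left
      ring_nf
    have hTD : T ^ (3 * (ε / 8)) * T ^ (ε / 2 + 6 * δ) ≤ T ^ (ε + 6 * δ) := by
      rw [← Real.rpow_add hT0]
      exact Real.rpow_le_rpow_of_exponent_le hT1 (by linarith)
    have h5 : (W.card : ℝ) * (VQ ^ 2 * (L * V ^ 6 * (W.card : ℝ) ^ 2)) ≤
        (W.card : ℝ) * ((1152 * E + 972 * C₁ * E ^ 3) * T ^ (ε + 6 * δ) *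
          (((NP : ℝ) * NE) ^ 2 * NE * (NE * L * T * NQ)) * Z) := by
      calc (W.card : ℝ) * (VQ ^ 2 * (L * V ^ 6 * (W.card : ℝ) ^ 2))
          = VQ ^ 2 * ((L : ℝ) * ((W.card : ℝ) * V ^ 2) ^ 3) := by ring
        _ ≤ _ := h4
        _ = (W.card : ℝ) * ((972 * C₁ * E ^ 3) * (T ^ (3 * (ε / 8)) * T ^ (ε / 2 + 6 * δ)) *
          (((NP : ℝ) * NE) ^ 2 * NE * (NE * L * T * NQ)) * Z) := by rw [hD3]; ring
        _ ≤ _ := by
          have h6 : 0 ≤ 1152 * E := by positivity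
          gcongr
          linarith
    exact le_of_mul_le_mul_left h5 hRpos

end Pool.Agent.NF
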